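import Pool.Agent.E8helper29.Zn.Stm

set_option autoImplicit false

namespace Pool.Agent.E8helper98.Zn

open MeasureTheory ProbabilityTheory Pool.Agent.Helper649.Zono Pool.Agent.E8helper29.Zn
open scoped RealInnerProductSpace Nat NNReal

lemma sg_abs (b : Bool) : |sg b| = 1 := by
  simp only [sg]
  split_ifs <;> simp

/-- polarization with one extra coordinate -/
lemma polar_extra (h : Stm4) (p : ℕ) (s : Fin p → ℝ) (τ : ℝ) :
    ∑ σ : Fin p → Bool, ∑ b : Bool,
      (∏ i, sg (σ i)) * sg b * (∑ i, sg (σ i) * s i + sg b * τ) ^ (p + 1)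
      = 2 ^ (p + 1) * ((p + 1)! : ℝ) * (∏ i, s i) * τ := by
  have h1 := h (p + 1) (Fin.cons τ s)
  rw [← (Fin.consEquiv (fun _ : Fin (p + 1) => Bool)).sum_comp] at h1
  rw [Fintype.sum_prod_type] at h1
  simp only [Fin.consEquiv_apply, Fin.prod_univ_succ, Fin.sum_univ_succ, Fin.cons_zero,
    Fin.cons_succ] at h1
  rw [Finset.sum_comm]
  calc _ = _ := ?_
    _ = _ := h1
    _ = _ := by ring
  refine Finset.sum_congr rfl (fun b _ => Finset.sum_congr rfl (fun σ _ => ?_))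
  ring

lemma abs_arg_le {p : ℕ} (s : Fin p → ℝ) (τ : ℝ) (σ : Fin p → Bool) (b : Bool) :
    |∑ i, sg (σ i) * s i + sg b * τ| ≤ ∑ i, |s i| + |τ| := by
  refine (abs_add_le _ _).trans (add_le_add ?_ ?_)
  · refine (Finset.abs_sum_le_sum_abs _ _).trans (Finset.sum_le_sum (fun i _ => ?_))
    rw [abs_mul, sg_abs, one_mul]
  · rw [abs_mul, sg_abs, one_mul]

lemma abs_signs_le {p : ℕ} (F : (Fin p → Bool) → Bool → ℝ) (B : ℝ) (hF : ∀ σ b, |F σ b| ≤ B) :
    |∑ σ : Fin p → Bool, ∑ b : Bool, (∏ i, sg (σ i)) * sg b * F σ b| ≤ 2 ^ (p + 1) * B := by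
  have h1 : |∑ σ : Fin p → Bool, ∑ b : Bool, (∏ i, sg (σ i)) * sg b * F σ b|
      ≤ ∑ σ : Fin p → Bool, ∑ b : Bool, B := by
    refine (Finset.abs_sum_le_sum_abs _ _).trans (Finset.sum_le_sum (fun σ _ => ?_))
    refine (Finset.abs_sum_le_sum_abs _ _).trans (Finset.sum_le_sum (fun b _ => ?_))
    rw [abs_mul, abs_mul, Finset.abs_prod, sg_abs]
    simp only [sg_abs, Finset.prod_const_one, one_mul]
    exact hF σ b
  refine h1.trans (le_of_eq ?_)
  simp only [Finset.sum_const, Finset.card_univ, Fintype.card_pi, Fintype.card_bool,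
    Finset.prod_const, Fintype.card_fin, nsmul_eq_mul]
  push_cast
  ring

lemma prod_abs_le {p : ℕ} (s : Fin p → ℝ) : |∏ i, s i| ≤ (∑ i, |s i|) ^ p := by
  rw [Finset.abs_prod]
  calc ∏ i, |s i| ≤ ∏ _i : Fin p, (∑ i, |s i|) :=
        Finset.prod_le_prod (fun i _ => abs_nonneg _)
          (fun i _ => Finset.single_le_sum (f := fun i => |s i|) (fun j _ => abs_nonneg _)
            (Finset.mem_univ i))
    _ = _ := by simp

theorem main_bound (h : Stm4) (p M : ℕ) (hp : 1 ≤ p) (G k1 : ℝ → ℝ) (a C c : ℝ)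
    (hc : 0 < c) (hC : 0 ≤ C)
    (hG1 : ∀ θ : ℝ, |G θ - a * θ ^ (p + 1)| ≤ C * θ ^ (2 * M + 2))
    (hG2 : ∀ θ : ℝ, |G θ| ≤ C * (1 + |θ|))
    (hk0 : ∀ t : ℝ, 0 ≤ k1 t)
    (hk1 : ∀ t : ℝ, |t| ≤ 1 → c * t ^ (2 * M + 2) ≤ k1 t)
    (hk2 : ∀ t : ℝ, 1 ≤ |t| → c * |t| ≤ k1 t) :
    ∃ C' : ℝ, 0 ≤ C' ∧ ∀ (s : Fin p → ℝ) (τ : ℝ),
      |∑ σ : Fin p → Bool, ∑ b : Bool,
          (∏ i, sg (σ i)) * sg b * G (∑ i, sg (σ i) * s i + sg b * τ)
        - 2 ^ (p + 1) * ((p + 1)! : ℝ) * a * (∏ i, s i) * τ|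
      ≤ C' * ((∑ i, |s i|) ^ (2 * M + 2) + (1 + (∑ i, |s i|) ^ p) * k1 τ) := by
  set B : ℝ := 2 ^ (p + 1) * (C * 2 ^ (2 * M + 2)) with hB
  set D : ℝ := 2 ^ (p + 1) * (3 * C) + 2 ^ (p + 1) * ((p + 1)! : ℝ) * |a| with hD
  have hB0 : 0 ≤ B := by positivity
  have hD0 : 0 ≤ D := by positivity
  have hBc : 0 ≤ B / c := by positivity
  have hDc : 0 ≤ D / c := by positivity
  refine ⟨B + B / c + D / c, by positivity, ?_⟩
  intro s τ
  set S : ℝ := ∑ i, |s i| with hS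
  have hS0 : 0 ≤ S := Finset.sum_nonneg (fun i _ => abs_nonneg _)
  have hSp : 0 ≤ S ^ p := by positivity
  have hSM : 0 ≤ S ^ (2 * M + 2) := by positivity
  have hk := hk0 τ
  have heven : Even (2 * M + 2) := ⟨M + 1, by ring⟩
  rcases le_total |τ| 1 with hτ | hτ
  · -- small τ
    have hmain : ∑ σ : Fin p → Bool, ∑ b : Bool,
          (∏ i, sg (σ i)) * sg b * G (∑ i, sg (σ i) * s i + sg b * τ)
        - 2 ^ (p + 1) * ((p + 1)! : ℝ) * a * (∏ i, s i) * τ
        = ∑ σ : Fin p → Bool, ∑ b : Bool, (∏ i, sg (σ i)) * sg b *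
          (G (∑ i, sg (σ i) * s i + sg b * τ)
            - a * (∑ i, sg (σ i) * s i + sg b * τ) ^ (p + 1)) := by
      have h2 := polar_extra h p s τ
      have h3 : 2 ^ (p + 1) * ((p + 1)! : ℝ) * a * (∏ i, s i) * τ
          = a * (2 ^ (p + 1) * ((p + 1)! : ℝ) * (∏ i, s i) * τ) := by ring
      rw [h3, ← h2, Finset.mul_sum, ← Finset.sum_sub_distrib]
      refine Finset.sum_congr rfl (fun σ _ => ?_)
      rw [Finset.mul_sum, ← Finset.sum_sub_distrib]
      refine Finset.sum_congr rfl (fun b _ => ?_)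
      ring
    rw [hmain]
    have hbd : ∀ (σ : Fin p → Bool) (b : Bool),
        |G (∑ i, sg (σ i) * s i + sg b * τ)
            - a * (∑ i, sg (σ i) * s i + sg b * τ) ^ (p + 1)|
        ≤ C * 2 ^ (2 * M + 2) * (S ^ (2 * M + 2) + k1 τ / c) := by
      intro σ b
      refine (hG1 _).trans ?_
      rw [mul_assoc]
      refine mul_le_mul_of_nonneg_left ?_ hC
      have h4 := abs_arg_le s τ σ b
      rw [← heven.pow_abs]
      have h5 : |∑ i, sg (σ i) * s i + sg b * τ| ^ (2 * M + 2) ≤ (S + |τ|) ^ (2 * M + 2) :=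
        pow_le_pow_left₀ (abs_nonneg _) h4 _
      refine h5.trans ?_
      have h6 : (S + |τ|) ^ (2 * M + 2)
          ≤ 2 ^ (2 * M + 2) * (S ^ (2 * M + 2) + |τ| ^ (2 * M + 2)) := by
        rcases le_total S |τ| with h7 | h7
        · calc (S + |τ|) ^ (2 * M + 2) ≤ (2 * |τ|) ^ (2 * M + 2) :=
                pow_le_pow_left₀ (by positivity) (by linarith) _
            _ = 2 ^ (2 * M + 2) * |τ| ^ (2 * M + 2) := mul_pow _ _ _
            _ ≤ _ := by
                refine mul_le_mul_of_nonneg_left ?_ (by positivity)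
                linarith
        · calc (S + |τ|) ^ (2 * M + 2) ≤ (2 * S) ^ (2 * M + 2) :=
                pow_le_pow_left₀ (by positivity) (by linarith) _
            _ = 2 ^ (2 * M + 2) * S ^ (2 * M + 2) := mul_pow _ _ _
            _ ≤ _ := by
                refine mul_le_mul_of_nonneg_left ?_ (by positivity)
                have : 0 ≤ |τ| ^ (2 * M + 2) := by positivity
                linarith
      refine h6.trans (mul_le_mul_of_nonneg_left ?_ (by positivity))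
      have h8 : |τ| ^ (2 * M + 2) ≤ k1 τ / c := by
        rw [heven.pow_abs, le_div_iff₀ hc, mul_comm]
        exact hk1 τ hτ
      linarith
    refine (abs_signs_le _ _ hbd).trans ?_
    have h9 : 2 ^ (p + 1) * (C * 2 ^ (2 * M + 2) * (S ^ (2 * M + 2) + k1 τ / c))
        = B * S ^ (2 * M + 2) + B / c * k1 τ := by
      rw [hB]
      field_simp
    rw [h9]
    have e1 : 0 ≤ (B / c + D / c) * S ^ (2 * M + 2) := by positivity
    have e2 : 0 ≤ B * k1 τ := by positivity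
    have e3 : 0 ≤ D / c * k1 τ := by positivity
    have e4 : 0 ≤ (B + B / c + D / c) * (S ^ p * k1 τ) := by positivity
    nlinarith
  · -- large τ
    have hbd : ∀ (σ : Fin p → Bool) (b : Bool),
        |G (∑ i, sg (σ i) * s i + sg b * τ)| ≤ 3 * C * ((1 + S ^ p) * |τ|) := by
      intro σ b
      refine (hG2 _).trans ?_
      have h4 := abs_arg_le s τ σ b
      have h5 : S ≤ 1 + S ^ p := by
        rcases le_total S 1 with h6 | h6
        · linarith
        · have : S ^ 1 ≤ S ^ p := pow_le_pow_right₀ h6 hp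
          rw [pow_one] at this
          linarith
      have h6 : 1 + |∑ i, sg (σ i) * s i + sg b * τ| ≤ 3 * ((1 + S ^ p) * |τ|) := by
        have h7 : S ≤ (1 + S ^ p) * |τ| := by nlinarith
        have h8 : |τ| ≤ (1 + S ^ p) * |τ| := by nlinarith [abs_nonneg τ]
        have h9 : 1 ≤ (1 + S ^ p) * |τ| := by linarith
        linarith
      nlinarith
    have h1 := abs_signs_le _ _ hbd
    have h2 : |2 ^ (p + 1) * ((p + 1)! : ℝ) * a * (∏ i, s i) * τ|
        ≤ 2 ^ (p + 1) * ((p + 1)! : ℝ) * |a| * ((1 + S ^ p) * |τ|) := by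
      have h3 := prod_abs_le s
      rw [abs_mul, abs_mul, abs_mul, abs_of_nonneg (by positivity :
        (0 : ℝ) ≤ 2 ^ (p + 1) * ((p + 1)! : ℝ)), mul_assoc]
      refine mul_le_mul_of_nonneg_left ?_ (by positivity)
      refine mul_le_mul_of_nonneg_right ?_ (abs_nonneg _)
      linarith
    have h3 : |∑ σ : Fin p → Bool, ∑ b : Bool,
          (∏ i, sg (σ i)) * sg b * G (∑ i, sg (σ i) * s i + sg b * τ)
        - 2 ^ (p + 1) * ((p + 1)! : ℝ) * a * (∏ i, s i) * τ|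
        ≤ D * ((1 + S ^ p) * |τ|) := by
      refine (abs_sub _ _).trans ?_
      rw [hD]
      calc _ ≤ 2 ^ (p + 1) * (3 * C * ((1 + S ^ p) * |τ|))
            + 2 ^ (p + 1) * ((p + 1)! : ℝ) * |a| * ((1 + S ^ p) * |τ|) := add_le_add h1 h2
        _ = _ := by ring
    refine h3.trans ?_
    have h4 : |τ| ≤ k1 τ / c := by
      rw [le_div_iff₀ hc, mul_comm]
      exact hk2 τ hτ
    have h5 : D * ((1 + S ^ p) * |τ|) ≤ D / c * ((1 + S ^ p) * k1 τ) := by
      calc D * ((1 + S ^ p) * |τ|) ≤ D * ((1 + S ^ p) * (k1 τ / c)) :=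
            mul_le_mul_of_nonneg_left (mul_le_mul_of_nonneg_left h4 (by positivity)) hD0
        _ = _ := by field_simp
    refine h5.trans ?_
    have e1 : 0 ≤ (B + B / c + D / c) * S ^ (2 * M + 2) := by positivity
    have e2 : 0 ≤ (B + B / c) * ((1 + S ^ p) * k1 τ) := by positivity
    nlinarith

/-- PIECE 5 of project ZN -/
theorem p5 (h : Stm4) : Stm5 := by
  intro k M hk _ G k1 a C c hc hC hG1 hG2 hk0 hk1 hk2
  obtain ⟨p, hp⟩ : ∃ p, 2 * k = p + 1 := ⟨2 * k - 1, by omega⟩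
  have hp1 : 1 ≤ p := by omega
  have hp2 : 2 * k - 1 = p := by omega
  rw [hp2]
  rw [hp] at hG1 ⊢
  exact main_bound h p M hp1 G k1 a C c hc hC hG1 hG2 hk0 hk1 hk2

end Pool.Agent.E8helper98.Zn
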